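import Pool.Agent.Lib.MP_6c91ae_an.ChMain

open Pool.Agent.Lib.MP_6c91ae_an

theorem Pool.Agent.Results.MP_6c91ae_an.Characterisation.result (φ : ℂ → ℂ)
    (hφ : DifferentiableOn ℂ φ (Metric.ball 0 1))
    (hm : Set.MapsTo φ (Metric.ball 0 1) (Metric.ball 0 1)) :
    Hypercyclic φ ↔ Set.InjOn φ (Metric.ball 0 1) ∧ (∀ z ∈ Metric.ball (0 : ℂ) 1, φ z ≠ z) ∧
      ∀ (m : ℕ) (S : Set ℂ), S.Finite → S ⊆ Metric.ball 0 1 \ φ^[m] '' Metric.ball 0 1 →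
        ∀ M : ℝ, ∃ n ≥ m, ∀ a ∈ S, ∃ u, Minorant φ^[n] u ∧ M ≤ u (φ^[n - m] a) :=
  characterisation φ hφ hm
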