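import Pool.Agent.Lib.MP_6c91ae_an.ThmA

open Pool.Agent.Lib.MP_6c91ae_an

theorem Pool.Agent.Results.MP_6c91ae_an.StepCondition.result (φ : ℂ → ℂ)
    (hφ : DifferentiableOn ℂ φ (Metric.ball 0 1))
    (hm : Set.MapsTo φ (Metric.ball 0 1) (Metric.ball 0 1)) (hc : Hypercyclic φ)
    (a : ℂ) (ha : a ∈ Metric.ball (0 : ℂ) 1) (M : ℝ) :
    ∃ n : ℕ, M < pdist (φ^[n] a) (φ^[n + 1] a) * Real.log (1 - ‖φ^[n] a‖ ^ 2) ^ 2 :=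
  thmA hφ hm hc ha M
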