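import Pool.Agent.Lib.MP_6c91ae_an.Fam

open Pool.Agent.Lib.MP_6c91ae_an

theorem Pool.Agent.Results.MP_6c91ae_an.ZeroStepThreshold.result (p c : ℝ) (hp : 1 < p)
    (hc : 2 * p + 1 ≤ c) :
    DifferentiableOn ℂ (fam p c) (Metric.ball 0 1) ∧
    Set.MapsTo (fam p c) (Metric.ball 0 1) (Metric.ball 0 1) ∧
    Filter.Tendsto (fun n : ℕ => (fam p c)^[n] 0) Filter.atTop (nhds 1) ∧
    Filter.Tendsto (fun n : ℕ => pdist ((fam p c)^[n] 0) ((fam p c)^[n + 1] 0))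
      Filter.atTop (nhds 0) ∧
    (Hypercyclic (fam p c) ↔ p < 3) :=
  ⟨fam_diff hp hc, fam_maps hp hc, fam_orbit_tendsto hp hc, fam_zero_step hp hc,
    fun h => not_le.1 fun h3 => fam_not_hypercyclic hp hc h3 h, fam_hypercyclic hp hc⟩
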